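import Mathlib

set_option autoImplicit false

namespace Pool.Agent.Lib.MP_159dfd_an

open Real Set

theorem ode_sol {L k : ℝ} (hk : k ≠ 0) {u u' : ℝ → ℝ}
    (h : ∀ x ∈ Icc 0 L, HasDerivWithinAt u (u' x) (Icc 0 L) x ∧
      HasDerivWithinAt u' (-(k ^ 2) * u x) (Icc 0 L) x) :
    ∀ x ∈ Icc 0 L, u x = u 0 * cos (k * x) + (u' 0 / k) * sin (k * x) ∧
      u' x / k = -(u 0) * sin (k * x) + (u' 0 / k) * cos (k * x) := by
  have hc : ∀ x, HasDerivAt (fun y => cos (k * y)) (-sin (k * x) * k) x := fun x => by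
    simpa using ((hasDerivAt_id x).const_mul k).cos
  have hs : ∀ x, HasDerivAt (fun y => sin (k * y)) (cos (k * x) * k) x := fun x => by
    simpa using ((hasDerivAt_id x).const_mul k).sin
  have h1 : ∀ x ∈ Icc 0 L, HasDerivWithinAt
      (fun y => u y * cos (k * y) - (u' y / k) * sin (k * y)) 0 (Icc 0 L) x := by
    intro x hx
    have := ((h x hx).1.mul (hc x).hasDerivWithinAt).sub
      (((h x hx).2.div_const k).mul (hs x).hasDerivWithinAt)
    exact this.congr_deriv (by field_simp; ring)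
  have h2 : ∀ x ∈ Icc 0 L, HasDerivWithinAt
      (fun y => u y * sin (k * y) + (u' y / k) * cos (k * y)) 0 (Icc 0 L) x := by
    intro x hx
    have := ((h x hx).1.mul (hs x).hasDerivWithinAt).add
      (((h x hx).2.div_const k).mul (hc x).hasDerivWithinAt)
    exact this.congr_deriv (by field_simp; ring)
  have key : ∀ φ : ℝ → ℝ, (∀ x ∈ Icc 0 L, HasDerivWithinAt φ 0 (Icc 0 L) x) →
      ∀ x ∈ Icc 0 L, φ x = φ 0 := by
    intro φ hφ
    refine constant_of_has_deriv_right_zero (fun x hx => (hφ x hx).continuousWithinAt) ?_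
    intro x hx
    exact (hφ x (Ico_subset_Icc_self hx)).mono_of_mem_nhdsWithin (Icc_mem_nhdsGE_of_mem hx)
  intro x hx
  have e1 := key _ h1 x hx
  have e2 := key _ h2 x hx
  simp only [mul_zero, cos_zero, sin_zero, mul_one, sub_zero, zero_add] at e1 e2
  have hsq := sin_sq_add_cos_sq (k * x)
  constructor
  · rw [← e1, ← e2]
    linear_combination (-(u x)) * hsq
  · rw [← e1, ← e2]
    linear_combination (-(u' x / k)) * hsq

/-- The lasso hanging at a vertex with value `f`. -/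
theorem lasso {ca sa cm sm f g B B' : ℝ} (hm : sm ^ 2 + cm ^ 2 = 1) (hsm : 0 < sm)
    (e1 : f * ca + B * sa = g)
    (e2 : g * (cm ^ 2 - sm ^ 2) + B' * (2 * sm * cm) = g)
    (e3 : B' - (-f * sa + B * ca) - (-g * (2 * sm * cm) + B' * (cm ^ 2 - sm ^ 2)) = 0) :
    B * (ca * cm - 2 * sa * sm) = f * (sa * cm + 2 * ca * sm) ∧ g * sm = B' * cm := by
  have h1 : g * sm = B' * cm := by
    have : sm * (g * sm - B' * cm) = 0 := by linear_combination (-1 / 2) * e2 + (g / 2) * hm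
    rcases mul_eq_zero.mp this with h | h
    · exact absurd h hsm.ne'
    · linarith
  refine ⟨?_, h1⟩
  linear_combination (-cm) * e3 + (-2 * sm) * e1 - (B' * cm - 2 * g * sm) * hm * (-1)
    + (-2 * sm ^ 2) * h1 + (2 * B' * cm - 4 * g * sm) * hm * (-1)

theorem half_angle {c s A B F : ℝ} (h : s ^ 2 + c ^ 2 = 1)
    (e : A * (c ^ 2 - s ^ 2) + B * (2 * s * c) = F) :
    (B - (-A * (2 * s * c) + B * (c ^ 2 - s ^ 2))) * c = (A + F) * s ∧
    (B + (-A * (2 * s * c) + B * (c ^ 2 - s ^ 2))) * s = -(A - F) * c := by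
  constructor
  · rw [← e]
    linear_combination (-(B * c) + A * s) * h
  · rw [← e]
    linear_combination (-(B * s) - A * c) * h

/-- The algebraic heart: below the critical frequency only the zero solution exists. -/
theorem all_zero {ca sa cb sb cm sm f0 f1 f2 f3 B0 B1 B2 B3 B4 B5 : ℝ}
    (ha : sa ^ 2 + ca ^ 2 = 1) (hb : sb ^ 2 + cb ^ 2 = 1) (hm : sm ^ 2 + cm ^ 2 = 1)
    (hsa : 0 < sa) (hca : 2 * sa < ca) (hsm : 0 < sm) (hcm : 7 * sm < 2 * cm)
    (hsb : 0 < sb) (hcb : 0 < sb + 2 * cb)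
    (e0 : f0 * (ca ^ 2 - sa ^ 2) + B0 * (2 * sa * ca) = f1)
    (e1 : f0 * (cb ^ 2 - sb ^ 2) + B1 * (2 * sb * cb) = f1)
    (e2 : f0 * ca + B2 * sa = f2) (e3 : f1 * ca + B3 * sa = f3)
    (e4 : f2 * (cm ^ 2 - sm ^ 2) + B4 * (2 * sm * cm) = f2)
    (e5 : f3 * (cm ^ 2 - sm ^ 2) + B5 * (2 * sm * cm) = f3)
    (k0 : B0 + B1 + B2 = 0)
    (k1 : B3 - (-f0 * (2 * sa * ca) + B0 * (ca ^ 2 - sa ^ 2))
      - (-f0 * (2 * sb * cb) + B1 * (cb ^ 2 - sb ^ 2)) = 0)
    (k2 : B4 - (-f0 * sa + B2 * ca) - (-f2 * (2 * sm * cm) + B4 * (cm ^ 2 - sm ^ 2)) = 0)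
    (k3 : B5 - (-f1 * sa + B3 * ca) - (-f3 * (2 * sm * cm) + B5 * (cm ^ 2 - sm ^ 2)) = 0) :
    f0 = 0 ∧ f1 = 0 ∧ f2 = 0 ∧ f3 = 0 ∧ B0 = 0 ∧ B1 = 0 ∧ B2 = 0 ∧ B3 = 0 ∧ B4 = 0 ∧ B5 = 0 := by
  obtain ⟨l2, m2⟩ := lasso hm hsm e2 e4 k2
  obtain ⟨l3, m3⟩ := lasso hm hsm e3 e5 k3
  have hca0 : 0 < ca := by linarith
  have hcm0 : 0 < cm := by linarith
  have hden : 0 < ca * cm - 2 * sa * sm := by
    have h1 := mul_pos (sub_pos.mpr hca) hcm0
    have h2 := mul_pos hsa (show 0 < cm - sm by linarith)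
    linarith
  obtain ⟨D, hD⟩ : ∃ D, D = (sa * cm + 2 * ca * sm) / (ca * cm - 2 * sa * sm) := ⟨_, rfl⟩
  have hD0 : 0 < D := hD ▸ div_pos (by positivity) hden
  have hD1 : D < 3 / 2 := by
    rw [hD, div_lt_iff₀ hden]
    have h1 := mul_pos (sub_pos.mpr hca) (sub_pos.mpr hcm)
    have h2 := mul_pos (sub_pos.mpr hca) hsm
    have h3 := mul_pos hsa (sub_pos.mpr hcm)
    linarith
  have hB2 : B2 = f0 * D := by
    rw [hD, ← mul_div_assoc, eq_div_iff hden.ne']
    exact l2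
  have hB3 : B3 = f1 * D := by
    rw [hD, ← mul_div_assoc, eq_div_iff hden.ne']
    exact l3
  obtain ⟨s0, d0⟩ := half_angle ha e0
  obtain ⟨s1, d1⟩ := half_angle hb e1
  have hσ : (f0 + f1) * (sa * cb + D * ca * cb + sb * ca) = 0 := by
    rw [hB2] at k0
    rw [hB3] at k1
    linear_combination (ca * cb) * (k0 + k1) - cb * s0 - ca * s1
  have hδ : (f0 - f1) * (D * sa * sb - ca * sb - cb * sa) = 0 := by
    rw [hB2] at k0
    rw [hB3] at k1
    linear_combination (sa * sb) * (k0 - k1) - sb * d0 - sa * d1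
  have hσ' : 0 < sa * cb + D * ca * cb + sb * ca := by
    rcases le_or_gt 0 cb with h | h
    · positivity
    · have h0 := mul_pos (sub_pos.mpr hD1) hca0
      have h1 : sa + D * ca < 2 * ca := by linarith
      have h2 := mul_pos hca0 hcb
      have h3 := mul_pos (sub_pos.mpr h1) (neg_pos.mpr h)
      linarith
  have hδ' : D * sa * sb - ca * sb - cb * sa < 0 := by
    have h1 := mul_pos hsa hcb
    have h2 := mul_pos (sub_pos.mpr hca) hsb
    have h3 := mul_pos (mul_pos hsa hsb) (sub_pos.mpr hD1)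
    linarith
  have hs : f0 + f1 = 0 := (mul_eq_zero.mp hσ).resolve_right hσ'.ne'
  have hd : f0 - f1 = 0 := (mul_eq_zero.mp hδ).resolve_right hδ'.ne
  have hf0 : f0 = 0 := by linarith
  have hf1 : f1 = 0 := by linarith
  have b2 : B2 = 0 := by rw [hB2, hf0, zero_mul]
  have b3 : B3 = 0 := by rw [hB3, hf1, zero_mul]
  have hf2 : f2 = 0 := by rw [← e2, hf0, b2]; ring
  have hf3 : f3 = 0 := by rw [← e3, hf1, b3]; ring
  have b0 : B0 = 0 := by
    rw [hf0, hf1, zero_mul, zero_add] at e0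
    exact (mul_eq_zero.mp e0).resolve_right (by positivity)
  have b4 : B4 = 0 := by
    rw [hf2, zero_mul] at m2
    exact (mul_eq_zero.mp m2.symm).resolve_right hcm0.ne'
  have b5 : B5 = 0 := by
    rw [hf3, zero_mul] at m3
    exact (mul_eq_zero.mp m3.symm).resolve_right hcm0.ne'
  refine ⟨hf0, hf1, hf2, hf3, b0, by linarith, b2, b3, b4, b5⟩

/-- For `0 < γ < arctan t`, `sin γ < t cos γ`. -/
theorem sin_lt_mul_cos {t γ : ℝ} (h0 : -(π / 2) < γ) (h1 : γ < arctan t) :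
    sin γ < t * cos γ := by
  have h2 : γ < π / 2 := h1.trans (arctan_lt_pi_div_two t)
  have hc : 0 < cos γ := cos_pos_of_mem_Ioo ⟨h0, h2⟩
  have := strictMonoOn_tan ⟨h0, h2⟩ (arctan_mem_Ioo t) h1
  rw [tan_arctan, tan_eq_sin_div_cos, div_lt_iff₀ hc] at this
  exact this

theorem sin_arctan_eq (t : ℝ) : sin (arctan t) = t * cos (arctan t) := by
  have h := tan_arctan t
  rw [tan_eq_sin_div_cos, div_eq_iff (cos_arctan_pos t).ne'] at h
  exact h

end Pool.Agent.Lib.MP_159dfd_an
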