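import Mathlib

set_option autoImplicit false

namespace Pool.Agent.Lib.MP_159dfd_an

/-- A finite metric graph: finitely many vertices and edges (loops and multiple edges allowed),
edge `e` is the interval `[0, len e]` with `0` glued to `src e` and `len e` glued to `tgt e`. -/
structure MetricGraph where
  nV : ℕ
  nE : ℕ
  src : Fin nE → Fin nV
  tgt : Fin nE → Fin nV
  len : Fin nE → ℝ
  len_pos : ∀ e, 0 < len e

/-- Any two vertices are joined by a path that uses only edges of `S`. -/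
def MetricGraph.ConnectedVia (Γ : MetricGraph) (S : Set (Fin Γ.nE)) : Prop :=
  ∀ v w : Fin Γ.nV, Relation.EqvGen (fun a b => ∃ e ∈ S, Γ.src e = a ∧ Γ.tgt e = b) v w

/-- The number of edge ends at a vertex. -/
def MetricGraph.degree (Γ : MetricGraph) (v : Fin Γ.nV) : ℕ :=
  (Finset.univ.filter fun e => Γ.src e = v).card + (Finset.univ.filter fun e => Γ.tgt e = v).card

/-- The points of the metric graph: vertices and interior points of edges. -/
def MetricGraph.Point (Γ : MetricGraph) : Type :=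
  Fin Γ.nV ⊕ (Σ e : Fin Γ.nE, Set.Ioo (0 : ℝ) (Γ.len e))

/-- `f` is an eigenfunction of the standard Laplacian for the eigenvalue `μ`: it is nonzero,
its restriction `u e` to each closed edge solves `-u'' = μ u`, takes the vertex values at the
ends (continuity), and the outward derivatives at each vertex sum to zero (Kirchhoff). -/
def MetricGraph.IsEigenfunction (Γ : MetricGraph) (μ : ℝ) (f : Γ.Point → ℝ) : Prop :=
  f ≠ 0 ∧ ∃ u u' : Fin Γ.nE → ℝ → ℝ,
    (∀ (e : Fin Γ.nE) (x : Set.Ioo (0 : ℝ) (Γ.len e)), u e x = f (Sum.inr ⟨e, x⟩)) ∧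
    (∀ e, u e 0 = f (Sum.inl (Γ.src e)) ∧ u e (Γ.len e) = f (Sum.inl (Γ.tgt e))) ∧
    (∀ e, ∀ x ∈ Set.Icc 0 (Γ.len e),
      HasDerivWithinAt (u e) (u' e x) (Set.Icc 0 (Γ.len e)) x ∧
      HasDerivWithinAt (u' e) (-μ * u e x) (Set.Icc 0 (Γ.len e)) x) ∧
    (∀ v, ∑ e with Γ.src e = v, u' e 0 - ∑ e with Γ.tgt e = v, u' e (Γ.len e) = 0)

/-- The set `M` of points where some eigenfunction for the least positive eigenvalue attains
its global maximum or its global minimum. -/
def MetricGraph.hotSpots (Γ : MetricGraph) : Set Γ.Point :=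
  {p | ∃ μ f, IsLeast {ν : ℝ | 0 < ν ∧ ∃ g, Γ.IsEigenfunction ν g} μ ∧ Γ.IsEigenfunction μ f ∧
    ((∀ q, f q ≤ f p) ∨ (∀ q, f p ≤ f q))}

end Pool.Agent.Lib.MP_159dfd_an
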