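import Pool.Agent.Lib.MP_159dfd_an.Defs
import Pool.Agent.Lib.MP_159dfd_an.Algebra

set_option autoImplicit false

namespace Pool.Agent.Lib.MP_159dfd_an

open Real Set

noncomputable def hh : ℝ := arctan (1 / 2)
noncomputable def mm : ℝ := arctan (2 / 7)

theorem hh_pos : 0 < hh := arctan_pos.mpr (by norm_num)
theorem mm_pos : 0 < mm := arctan_pos.mpr (by norm_num)
theorem hh_lt : hh < π / 4 := by
  rw [hh, ← arctan_one]; exact arctan_strictMono (by norm_num)
theorem mm_lt : mm < π / 4 := by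
  rw [mm, ← arctan_one]; exact arctan_strictMono (by norm_num)
theorem sin_hh : sin hh = 1 / 2 * cos hh := sin_arctan_eq _
theorem sin_mm : sin mm = 2 / 7 * cos mm := sin_arctan_eq _
theorem cos_hh_sq : cos hh ^ 2 = 4 / 5 := by
  have := sin_sq_add_cos_sq hh
  rw [sin_hh] at this
  linarith
theorem cos_mm_sq : cos mm ^ 2 = 49 / 53 := by
  have := sin_sq_add_cos_sq mm
  rw [sin_mm] at this
  linarith
theorem cos_2hh : cos (2 * hh) = 3 / 5 := by rw [cos_two_mul, cos_hh_sq]; norm_num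
theorem sin_2hh : sin (2 * hh) = 4 / 5 := by
  rw [sin_two_mul, sin_hh]; linarith [cos_hh_sq]
theorem cos_2mm : cos (2 * mm) = 45 / 53 := by rw [cos_two_mul, cos_mm_sq]; norm_num
theorem sin_2mm : sin (2 * mm) = 28 / 53 := by
  rw [sin_two_mul, sin_mm]; linarith [cos_mm_sq]

/-- A cycle made of two arcs whose lengths differ by `π`, with a lasso at each vertex. -/
@[reducible] noncomputable def G0 : MetricGraph where
  nV := 4
  nE := 6
  src := ![0, 0, 0, 1, 2, 3]
  tgt := ![1, 1, 2, 3, 2, 3]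
  len := ![2 * hh, 2 * hh + π, hh, hh, 2 * mm, 2 * mm]
  len_pos := by
    have := hh_pos
    have := mm_pos
    have := pi_pos
    intro e
    fin_cases e <;> simp <;> positivity

theorem G0_connected : G0.ConnectedVia univ := by
  have h : ∀ v : Fin 4, Relation.EqvGen
      (fun a b => ∃ e ∈ (univ : Set (Fin G0.nE)), G0.src e = a ∧ G0.tgt e = b) 0 v := by
    intro v
    fin_cases v
    · exact Relation.EqvGen.refl _
    · exact Relation.EqvGen.rel _ _ ⟨0, trivial, rfl, rfl⟩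
    · exact Relation.EqvGen.rel _ _ ⟨2, trivial, rfl, rfl⟩
    · exact Relation.EqvGen.trans _ 1 _ (Relation.EqvGen.rel _ _ ⟨0, trivial, rfl, rfl⟩)
        (Relation.EqvGen.rel _ _ ⟨3, trivial, rfl, rfl⟩)
  intro v w
  exact Relation.EqvGen.trans _ 0 _ (Relation.EqvGen.symm _ _ (h v)) (h w)

theorem G0_degree (v : Fin G0.nV) : G0.degree v = 3 := by
  revert v
  decide

theorem G0_bridge : ¬ G0.ConnectedVia {e | e ≠ 2} := by
  intro h
  have key : ∀ a b : Fin 4, Relation.EqvGen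
      (fun a b => ∃ e ∈ ({e | e ≠ 2} : Set (Fin G0.nE)), G0.src e = a ∧ G0.tgt e = b) a b →
      (a = 2 ↔ b = 2) := by
    intro a b hab
    induction hab with
    | rel a b h =>
      obtain ⟨e, he, rfl, rfl⟩ := h
      revert he
      revert e
      decide
    | refl a => rfl
    | symm a b _ ih => exact ih.symm
    | trans a b c _ _ ih1 ih2 => exact ih1.trans ih2
  have := key 0 2 (h 0 2)
  revert this
  decide

theorem no_small {ν : ℝ} (h0 : 0 < ν) (h1 : ν < 1) (f : G0.Point → ℝ) :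
    ¬ G0.IsEigenfunction ν f := by
  rintro ⟨hf, u, u', hu, hv, hd, hK⟩
  obtain ⟨k, hk0, hk1, rfl⟩ : ∃ k : ℝ, 0 < k ∧ k < 1 ∧ ν = k ^ 2 :=
    ⟨√ν, sqrt_pos.mpr h0, by rw [sqrt_lt' one_pos]; linarith, (sq_sqrt h0.le).symm⟩
  have sol := fun e => ode_sol hk0.ne' (hd e)
  have en := fun e => sol e (G0.len e) ⟨(G0.len_pos e).le, le_rfl⟩
  have hhp := hh_pos
  have hmp := mm_pos
  have hhl := hh_lt
  have hml := mm_lt
  have hpi := pi_pos
  have hkh : k * hh < hh := by nlinarith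
  have hkm : k * mm < mm := by nlinarith
  have hkh0 : 0 < k * hh := by positivity
  have hkm0 : 0 < k * mm := by positivity
  have hkp : k * π < π := by nlinarith
  have hkp0 : 0 < k * π := by positivity
  have c2 : ∀ x, cos (2 * x) = cos x ^ 2 - sin x ^ 2 := fun x => cos_two_mul' x
  have a0 : k * (2 * hh) = 2 * (k * hh) := by ring
  have a1 : k * (2 * hh + π) = 2 * (k * hh + k * π / 2) := by ring
  have a4 : k * (2 * mm) = 2 * (k * mm) := by ring
  have hsa : 0 < sin (k * hh) := sin_pos_of_pos_of_lt_pi hkh0 (by linarith)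
  have hca : 2 * sin (k * hh) < cos (k * hh) := by
    have := sin_lt_mul_cos (t := 1 / 2) (γ := k * hh) (by linarith) hkh
    linarith
  have hsm : 0 < sin (k * mm) := sin_pos_of_pos_of_lt_pi hkm0 (by linarith)
  have hcm : 7 * sin (k * mm) < 2 * cos (k * mm) := by
    have := sin_lt_mul_cos (t := 2 / 7) (γ := k * mm) (by linarith) hkm
    linarith
  have hsb : 0 < sin (k * hh + k * π / 2) := sin_pos_of_pos_of_lt_pi (by linarith) (by linarith)
  have hcb : 0 < sin (k * hh + k * π / 2) + 2 * cos (k * hh + k * π / 2) := by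
    have := sin_lt_mul_cos (t := 1 / 2) (γ := k * hh + k * π / 2 - π / 2) (by linarith)
      (by change _ < hh; linarith)
    rw [sin_sub_pi_div_two, cos_sub_pi_div_two] at this
    linarith
  have v0 := hv 0
  have v1 := hv 1
  have v2 := hv 2
  have v3 := hv 3
  have v4 := hv 4
  have v5 := hv 5
  have n0 := en 0
  have n1 := en 1
  have n2 := en 2
  have n3 := en 3
  have n4 := en 4
  have n5 := en 5
  have K0 := hK 0
  have K1 := hK 1
  have K2 := hK 2
  have K3 := hK 3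
  simp only [Finset.sum_filter, Fin.sum_univ_six] at K0 K1 K2 K3
  change u 0 0 = f (Sum.inl 0) ∧ u 0 (2 * hh) = f (Sum.inl 1) at v0
  change u 1 0 = f (Sum.inl 0) ∧ u 1 (2 * hh + π) = f (Sum.inl 1) at v1
  change u 2 0 = f (Sum.inl 0) ∧ u 2 hh = f (Sum.inl 2) at v2
  change u 3 0 = f (Sum.inl 1) ∧ u 3 hh = f (Sum.inl 3) at v3
  change u 4 0 = f (Sum.inl 2) ∧ u 4 (2 * mm) = f (Sum.inl 2) at v4
  change u 5 0 = f (Sum.inl 3) ∧ u 5 (2 * mm) = f (Sum.inl 3) at v5
  change u 0 (2 * hh) = u 0 0 * cos (k * (2 * hh)) + u' 0 0 / k * sin (k * (2 * hh)) ∧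
    u' 0 (2 * hh) / k = -(u 0 0) * sin (k * (2 * hh)) + u' 0 0 / k * cos (k * (2 * hh)) at n0
  change u 1 (2 * hh + π) = u 1 0 * cos (k * (2 * hh + π)) + u' 1 0 / k * sin (k * (2 * hh + π)) ∧
    u' 1 (2 * hh + π) / k = -(u 1 0) * sin (k * (2 * hh + π))
      + u' 1 0 / k * cos (k * (2 * hh + π)) at n1
  change u 2 hh = u 2 0 * cos (k * hh) + u' 2 0 / k * sin (k * hh) ∧
    u' 2 hh / k = -(u 2 0) * sin (k * hh) + u' 2 0 / k * cos (k * hh) at n2
  change u 3 hh = u 3 0 * cos (k * hh) + u' 3 0 / k * sin (k * hh) ∧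
    u' 3 hh / k = -(u 3 0) * sin (k * hh) + u' 3 0 / k * cos (k * hh) at n3
  change u 4 (2 * mm) = u 4 0 * cos (k * (2 * mm)) + u' 4 0 / k * sin (k * (2 * mm)) ∧
    u' 4 (2 * mm) / k = -(u 4 0) * sin (k * (2 * mm)) + u' 4 0 / k * cos (k * (2 * mm)) at n4
  change u 5 (2 * mm) = u 5 0 * cos (k * (2 * mm)) + u' 5 0 / k * sin (k * (2 * mm)) ∧
    u' 5 (2 * mm) / k = -(u 5 0) * sin (k * (2 * mm)) + u' 5 0 / k * cos (k * (2 * mm)) at n5
  have K0' : u' 0 0 + u' 1 0 + u' 2 0 = 0 := by simpa using K0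
  have K1' : u' 3 0 - (u' 0 (2 * hh) + u' 1 (2 * hh + π)) = 0 := by simpa using K1
  have K2' : u' 4 0 - (u' 2 hh + u' 4 (2 * mm)) = 0 := by simpa using K2
  have K3' : u' 5 0 - (u' 3 hh + u' 5 (2 * mm)) = 0 := by simpa using K3
  rw [a0, c2, sin_two_mul, v0.1, v0.2] at n0
  rw [a1, c2, sin_two_mul, v1.1, v1.2] at n1
  rw [v2.1, v2.2] at n2
  rw [v3.1, v3.2] at n3
  rw [a4, c2, sin_two_mul, v4.1, v4.2] at n4
  rw [a4, c2, sin_two_mul, v5.1, v5.2] at n5
  obtain ⟨z0, z1, z2, z3, b0, b1, b2, b3, b4, b5⟩ :=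
    all_zero (sin_sq_add_cos_sq _) (sin_sq_add_cos_sq _) (sin_sq_add_cos_sq _)
      hsa hca hsm hcm hsb hcb n0.1.symm n1.1.symm n2.1.symm n3.1.symm n4.1.symm n5.1.symm
      (by rw [← add_div, ← add_div, K0', zero_div])
      (by rw [← n0.2, ← n1.2, ← sub_div, ← sub_div, sub_sub, K1', zero_div])
      (by rw [← n2.2, ← n4.2, ← sub_div, ← sub_div, sub_sub, K2', zero_div])
      (by rw [← n3.2, ← n5.2, ← sub_div, ← sub_div, sub_sub, K3', zero_div])
  have hA : ∀ e, u e 0 = 0 := by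
    intro e
    fin_cases e
    exacts [v0.1.trans z0, v1.1.trans z0, v2.1.trans z0, v3.1.trans z1, v4.1.trans z2,
      v5.1.trans z3]
  have hB : ∀ e, u' e 0 / k = 0 := by
    intro e
    fin_cases e
    exacts [b0, b1, b2, b3, b4, b5]
  apply hf
  funext p
  rcases p with v | ⟨e, x⟩
  · fin_cases v
    exacts [z0, z1, z2, z3]
  · rw [← hu e x, (sol e x (Ioo_subset_Icc_self x.2)).1, hA, hB, zero_mul, zero_mul, add_zero]
    rfl

/-- Coefficients of the cosine on each edge. -/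
noncomputable def cA (θ : ℝ) : Fin 6 → ℝ :=
  ![cos θ, cos θ, cos θ, -cos (2 * hh - θ), 7 / 4 * cos hh * cos θ,
    7 / 4 * cos hh * -cos (2 * hh - θ)]

/-- Coefficients of the sine on each edge. -/
noncomputable def cB (θ : ℝ) : Fin 6 → ℝ :=
  ![-(3 / 2) * cos θ - sin θ, sin θ, 3 / 2 * cos θ, 3 / 2 * -cos (2 * hh - θ),
    1 / 2 * cos hh * cos θ, 1 / 2 * cos hh * -cos (2 * hh - θ)]

/-- The eigenfunction equal to `cos (x - θ)` on the long arc. -/
noncomputable def ef (θ : ℝ) : G0.Point → ℝ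
  | Sum.inl v => ![cos θ, -cos (2 * hh - θ), 7 / 4 * cos hh * cos θ,
      7 / 4 * cos hh * -cos (2 * hh - θ)] v
  | Sum.inr ⟨e, x⟩ => cA θ e * cos x + cB θ e * sin x

theorem ef_eigen (θ : ℝ) (hθ : θ ∈ Ioo (0 : ℝ) (G0.len 1)) : G0.IsEigenfunction 1 (ef θ) := by
  have hc : cos (2 * hh - θ) = 3 / 5 * cos θ + 4 / 5 * sin θ := by
    rw [cos_sub, cos_2hh, sin_2hh]
  refine ⟨?_, fun e x => cA θ e * cos x + cB θ e * sin x,
    fun e x => -(cA θ e * sin x) + cB θ e * cos x, fun e x => rfl, ?_, ?_, ?_⟩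
  · intro h
    have := congrFun h (Sum.inr ⟨1, ⟨θ, hθ⟩⟩)
    change cos θ * cos θ + sin θ * sin θ = 0 at this
    nlinarith [sin_sq_add_cos_sq θ]
  · intro e
    fin_cases e
    · refine ⟨by simp [cA, ef], ?_⟩
      change cos θ * cos (2 * hh) + (-(3 / 2) * cos θ - sin θ) * sin (2 * hh) = -cos (2 * hh - θ)
      rw [hc, cos_2hh, sin_2hh]; ring
    · refine ⟨by simp [cA, ef], ?_⟩
      change cos θ * cos (2 * hh + π) + sin θ * sin (2 * hh + π) = -cos (2 * hh - θ)
      rw [hc, cos_add_pi, sin_add_pi, cos_2hh, sin_2hh]; ring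
    · refine ⟨by simp [cA, ef], ?_⟩
      change cos θ * cos hh + 3 / 2 * cos θ * sin hh = 7 / 4 * cos hh * cos θ
      rw [sin_hh]; ring
    · refine ⟨by simp [cA, ef], ?_⟩
      change -cos (2 * hh - θ) * cos hh + 3 / 2 * -cos (2 * hh - θ) * sin hh
        = 7 / 4 * cos hh * -cos (2 * hh - θ)
      rw [sin_hh]; ring
    · refine ⟨by simp [cA, ef], ?_⟩
      change 7 / 4 * cos hh * cos θ * cos (2 * mm) + 1 / 2 * cos hh * cos θ * sin (2 * mm)
        = 7 / 4 * cos hh * cos θ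
      rw [cos_2mm, sin_2mm]; ring
    · refine ⟨by simp [cA, ef], ?_⟩
      change 7 / 4 * cos hh * -cos (2 * hh - θ) * cos (2 * mm)
        + 1 / 2 * cos hh * -cos (2 * hh - θ) * sin (2 * mm) = 7 / 4 * cos hh * -cos (2 * hh - θ)
      rw [cos_2mm, sin_2mm]; ring
  · intro e x _
    constructor
    · exact (((hasDerivAt_cos x).const_mul (cA θ e)).add
        ((hasDerivAt_sin x).const_mul (cB θ e))).hasDerivWithinAt.congr_deriv (by ring)
    · exact (((hasDerivAt_sin x).const_mul (cA θ e)).neg.add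
        ((hasDerivAt_cos x).const_mul (cB θ e))).hasDerivWithinAt.congr_deriv (by ring)
  · intro v
    simp only [Finset.sum_filter, Fin.sum_univ_six]
    fin_cases v
    · simp [cA, cB]
    · simp [cA, cB, hc, cos_add_pi, sin_add_pi, cos_2hh, sin_2hh]
      ring
    · simp [cA, cB, cos_2mm, sin_2mm, sin_hh]
      ring
    · simp [cA, cB, cos_2mm, sin_2mm, sin_hh]
      ring

theorem ef_le_one (θ : ℝ) (h1 : π / 2 < θ) (h2 : θ < π / 2 + 2 * hh) (q : G0.Point) :
    ef θ q ≤ 1 := by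
  have hhp := hh_pos
  have hmp := mm_pos
  have hhl := hh_lt
  have hml := mm_lt
  have hpi := pi_pos
  have p1 : cos θ < 0 := cos_neg_of_pi_div_two_lt_of_lt h1 (by linarith)
  have p2 : 0 < cos (2 * hh - θ) := cos_pos_of_mem_Ioo ⟨by linarith, by linarith⟩
  have p3 : 0 < cos hh := cos_arctan_pos _
  have hc : cos (2 * hh - θ) = 3 / 5 * cos θ + 4 / 5 * sin θ := by
    rw [cos_sub, cos_2hh, sin_2hh]
  have q1 : cos hh * cos θ < 0 := mul_neg_of_pos_of_neg p3 p1
  have q2 : 0 < cos hh * cos (2 * hh - θ) := mul_pos p3 p2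
  have gen : ∀ A B x : ℝ, A ≤ 0 → B ≤ 0 → 0 < x → x < π / 2 → A * cos x + B * sin x ≤ 1 := by
    intro A B x hA hB hx0 hx1
    have := mul_nonpos_of_nonpos_of_nonneg hA
      (cos_pos_of_mem_Ioo (x := x) ⟨by linarith, hx1⟩).le
    have := mul_nonpos_of_nonpos_of_nonneg hB
      (sin_pos_of_pos_of_lt_pi (x := x) hx0 (by linarith)).le
    linarith
  rcases q with v | ⟨e, x, hx0, hx1⟩
  · fin_cases v
    · change cos θ ≤ 1
      linarith
    · change -cos (2 * hh - θ) ≤ 1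
      linarith
    · change 7 / 4 * cos hh * cos θ ≤ 1
      linarith
    · change 7 / 4 * cos hh * -cos (2 * hh - θ) ≤ 1
      linarith
  · fin_cases e
    · change x < 2 * hh at hx1
      change cos θ * cos x + (-(3 / 2) * cos θ - sin θ) * sin x ≤ 1
      have s1 : 0 < sin x := sin_pos_of_pos_of_lt_pi hx0 (by linarith)
      have s2 : 0 < sin (2 * hh - x) := sin_pos_of_pos_of_lt_pi (by linarith) (by linarith)
      have t1 := mul_pos p2 s1
      have t2 := mul_neg_of_neg_of_pos p1 s2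
      rw [sin_sub, cos_2hh, sin_2hh] at t2
      rw [hc] at t1
      linarith
    · change cos θ * cos x + sin θ * sin x ≤ 1
      rw [← cos_sub]
      exact cos_le_one _
    · change x < hh at hx1
      exact gen (cos θ) (3 / 2 * cos θ) x (by linarith) (by linarith) hx0 (by linarith)
    · change x < hh at hx1
      exact gen (-cos (2 * hh - θ)) (3 / 2 * -cos (2 * hh - θ)) x (by linarith) (by linarith)
        hx0 (by linarith)
    · change x < 2 * mm at hx1
      exact gen (7 / 4 * cos hh * cos θ) (1 / 2 * cos hh * cos θ) x (by linarith) (by linarith)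
        hx0 (by linarith)
    · change x < 2 * mm at hx1
      exact gen (7 / 4 * cos hh * -cos (2 * hh - θ)) (1 / 2 * cos hh * -cos (2 * hh - θ)) x
        (by linarith) (by linarith) hx0 (by linarith)

theorem mem_long {θ : ℝ} (hθ : θ ∈ Ioo (π / 2) (π / 2 + 2 * hh)) : θ ∈ Ioo (0 : ℝ) (G0.len 1) := by
  have hpi := pi_pos
  refine ⟨by linarith [hθ.1], ?_⟩
  change θ < 2 * hh + π
  linarith [hθ.2]

theorem mem_hotSpots {θ : ℝ} (hθ : θ ∈ Ioo (π / 2) (π / 2 + 2 * hh)) :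
    (Sum.inr ⟨1, ⟨θ, mem_long hθ⟩⟩ : G0.Point) ∈ G0.hotSpots := by
  refine ⟨1, ef θ, ⟨⟨one_pos, _, ef_eigen θ (mem_long hθ)⟩, ?_⟩, ef_eigen θ (mem_long hθ),
    Or.inl fun q => ?_⟩
  · rintro ν ⟨h0, g, hg⟩
    by_contra h1
    exact no_small h0 (not_le.mp h1) g hg
  · refine (ef_le_one θ hθ.1 hθ.2 q).trans (le_of_eq ?_)
    change 1 = cos θ * cos θ + sin θ * sin θ
    nlinarith [sin_sq_add_cos_sq θ]

theorem G0_uncountable : ¬ G0.hotSpots.Countable := by
  intro h
  let c : G0.Point → ℝ := fun p => match p with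
    | Sum.inl _ => 0
    | Sum.inr ⟨_, x⟩ => x
  have hsub : Ioo (π / 2) (π / 2 + 2 * hh) ⊆ c '' G0.hotSpots :=
    fun θ hθ => ⟨_, mem_hotSpots hθ, rfl⟩
  have hcount := (h.image c).mono hsub
  have hlt : π / 2 < π / 2 + 2 * hh := by linarith [hh_pos]
  have := hcount.le_aleph0
  rw [Cardinal.mk_Ioo_real hlt] at this
  exact absurd this (not_le.mpr Cardinal.aleph0_lt_continuum)

end Pool.Agent.Lib.MP_159dfd_an
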