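import Pool.Agent.Lib.MP_159dfd_an.Defs
import Pool.Agent.Lib.MP_159dfd_an.Algebra

/-! A family of cubic graphs with a bridge on which the hot spots fill almost all the length. -/

set_option autoImplicit false

namespace Pool.Agent.Lib.MP_159dfd_an

open Real Set

/-- The parameters: the tangents of half the short arc, of the stem and of half the loop. -/
structure Par where
  t : ℝ
  D : ℝ
  σ : ℝ
  μ : ℝ
  t0 : 0 < t
  t1 : t < 1
  D0 : 0 < D
  σ0 : 0 < σ
  σ1 : σ < 1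
  μ0 : 0 < μ
  μ1 : μ < 1
  eD : D * t = 1 - t ^ 2
  eμ : 2 * μ * (1 + D * σ) = D - σ

theorem all_zero' (P : Par) {ca sa cb sb cs ss cm sm f0 f1 f2 f3 B0 B1 B2 B3 B4 B5 : ℝ}
    (ha : sa ^ 2 + ca ^ 2 = 1) (hb : sb ^ 2 + cb ^ 2 = 1) (hm : sm ^ 2 + cm ^ 2 = 1)
    (hsa : 0 < sa) (hca : sa < P.t * ca) (hss : 0 < ss) (hcs : ss < P.σ * cs)
    (hsm : 0 < sm) (hcm : sm < P.μ * cm) (hsb : 0 < sb) (hcb : -cb < P.t * sb)
    (e0 : f0 * (ca ^ 2 - sa ^ 2) + B0 * (2 * sa * ca) = f1)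
    (e1 : f0 * (cb ^ 2 - sb ^ 2) + B1 * (2 * sb * cb) = f1)
    (e2 : f0 * cs + B2 * ss = f2) (e3 : f1 * cs + B3 * ss = f3)
    (e4 : f2 * (cm ^ 2 - sm ^ 2) + B4 * (2 * sm * cm) = f2)
    (e5 : f3 * (cm ^ 2 - sm ^ 2) + B5 * (2 * sm * cm) = f3)
    (k0 : B0 + B1 + B2 = 0)
    (k1 : B3 - (-f0 * (2 * sa * ca) + B0 * (ca ^ 2 - sa ^ 2))
      - (-f0 * (2 * sb * cb) + B1 * (cb ^ 2 - sb ^ 2)) = 0)
    (k2 : B4 - (-f0 * ss + B2 * cs) - (-f2 * (2 * sm * cm) + B4 * (cm ^ 2 - sm ^ 2)) = 0)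
    (k3 : B5 - (-f1 * ss + B3 * cs) - (-f3 * (2 * sm * cm) + B5 * (cm ^ 2 - sm ^ 2)) = 0) :
    f0 = 0 ∧ f1 = 0 ∧ f2 = 0 ∧ f3 = 0 ∧ B0 = 0 ∧ B1 = 0 ∧ B2 = 0 ∧ B3 = 0 ∧ B4 = 0 ∧ B5 = 0 := by
  obtain ⟨t, D, σ, μ, t0, t1, D0, σ0, σ1, μ0, μ1, eD, eμ⟩ := P
  simp only at hca hcs hcm hcb
  obtain ⟨l2, m2⟩ := lasso hm hsm e2 e4 k2
  obtain ⟨l3, m3⟩ := lasso hm hsm e3 e5 k3
  have hca0 : 0 < ca := pos_of_mul_pos_right (a := t) (hsa.trans hca) t0.le
  have hcs0 : 0 < cs := pos_of_mul_pos_right (a := σ) (hss.trans hcs) σ0.le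
  have hcm0 : 0 < cm := pos_of_mul_pos_right (a := μ) (hsm.trans hcm) μ0.le
  have hlt : ss * cm + 2 * cs * sm < D * (cs * cm - 2 * ss * sm) := by
    have h1 := mul_pos (sub_pos.mpr hcs) hcm0
    have h2 := mul_pos (sub_pos.mpr hcm) hcs0
    have h3 := mul_pos D0 (sub_pos.mpr (mul_lt_mul'' hcs hcm hss.le hsm.le))
    have h4 : (D - σ - 2 * μ * (1 + D * σ)) * (cs * cm) = 0 := by rw [eμ, sub_self, zero_mul]
    linarith
  have hden : 0 < cs * cm - 2 * ss * sm :=
    pos_of_mul_pos_right (a := D) (lt_trans (by positivity) hlt) D0.le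
  obtain ⟨E, hE⟩ : ∃ E, E = (ss * cm + 2 * cs * sm) / (cs * cm - 2 * ss * sm) := ⟨_, rfl⟩
  have hE0 : 0 < E := hE ▸ div_pos (by positivity) hden
  have hE1 : E < D := by rwa [hE, div_lt_iff₀ hden]
  have hB2 : B2 = f0 * E := by
    rw [hE, ← mul_div_assoc, eq_div_iff hden.ne']
    exact l2
  have hB3 : B3 = f1 * E := by
    rw [hE, ← mul_div_assoc, eq_div_iff hden.ne']
    exact l3
  obtain ⟨s0, d0⟩ := half_angle ha e0
  obtain ⟨s1, d1⟩ := half_angle hb e1
  have hσ : (f0 + f1) * (sa * cb + E * ca * cb + sb * ca) = 0 := by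
    rw [hB2] at k0
    rw [hB3] at k1
    linear_combination (ca * cb) * (k0 + k1) - cb * s0 - ca * s1
  have hδ : (f0 - f1) * (E * sa * sb - ca * sb - cb * sa) = 0 := by
    rw [hB2] at k0
    rw [hB3] at k1
    linear_combination (sa * sb) * (k0 - k1) - sb * d0 - sa * d1
  have hσ' : 0 < sa * cb + E * ca * cb + sb * ca := by
    rcases le_or_gt 0 cb with h | h
    · positivity
    · refine pos_of_mul_pos_right (a := t) ?_ t0.le
      have h1 := mul_pos (mul_pos t0 (sub_pos.mpr hca)) (neg_pos.mpr h)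
      have h2 := mul_pos (mul_pos (mul_pos t0 (sub_pos.mpr hE1)) hca0) (neg_pos.mpr h)
      have h3 := mul_pos hca0 (sub_pos.mpr hcb)
      have h4 : (D * t - (1 - t ^ 2)) * (ca * cb) = 0 := by rw [eD, sub_self, zero_mul]
      linarith
  have hδ' : 0 < -(E * sa * sb - ca * sb - cb * sa) := by
    refine pos_of_mul_pos_right (a := t) ?_ t0.le
    have h1 := mul_pos (mul_pos t0 hsa) (sub_pos.mpr hcb)
    have h2 := mul_pos (sub_pos.mpr hca) hsb
    have h3 := mul_pos (mul_pos t0 (mul_pos hsa hsb)) (sub_pos.mpr hE1)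
    have h4 : (D * t - (1 - t ^ 2)) * (sa * sb) = 0 := by rw [eD, sub_self, zero_mul]
    linarith
  have hs : f0 + f1 = 0 := (mul_eq_zero.mp hσ).resolve_right hσ'.ne'
  have hd : f0 - f1 = 0 := (mul_eq_zero.mp hδ).resolve_right (neg_pos.mp hδ').ne
  have hf0 : f0 = 0 := by linarith
  have hf1 : f1 = 0 := by linarith
  have b2 : B2 = 0 := by rw [hB2, hf0, zero_mul]
  have b3 : B3 = 0 := by rw [hB3, hf1, zero_mul]
  have hf2 : f2 = 0 := by rw [← e2, hf0, b2]; ring
  have hf3 : f3 = 0 := by rw [← e3, hf1, b3]; ring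
  have b0 : B0 = 0 := by
    rw [hf0, hf1, zero_mul, zero_add] at e0
    exact (mul_eq_zero.mp e0).resolve_right (by positivity)
  have b4 : B4 = 0 := by
    rw [hf2, zero_mul] at m2
    exact (mul_eq_zero.mp m2.symm).resolve_right hcm0.ne'
  have b5 : B5 = 0 := by
    rw [hf3, zero_mul] at m3
    exact (mul_eq_zero.mp m3.symm).resolve_right hcm0.ne'
  refine ⟨hf0, hf1, hf2, hf3, b0, by linarith, b2, b3, b4, b5⟩

theorem arctan_lt_quarter {x : ℝ} (h : x < 1) : arctan x < π / 4 := by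
  rw [← arctan_one]; exact arctan_strictMono h

namespace Par

variable (P : Par)

noncomputable def h : ℝ := arctan P.t
noncomputable def s : ℝ := arctan P.σ
noncomputable def m : ℝ := arctan P.μ

theorem h0 : 0 < P.h := arctan_pos.mpr P.t0
theorem s0 : 0 < P.s := arctan_pos.mpr P.σ0
theorem m0 : 0 < P.m := arctan_pos.mpr P.μ0
theorem h1 : P.h < π / 4 := arctan_lt_quarter P.t1
theorem s1 : P.s < π / 4 := arctan_lt_quarter P.σ1
theorem m1 : P.m < π / 4 := arctan_lt_quarter P.μ1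

theorem cot_a : P.D * sin (2 * P.h) = 2 * cos (2 * P.h) := by
  rw [sin_two_mul, cos_two_mul', h, sin_arctan_eq]
  linear_combination 2 * cos (arctan P.t) ^ 2 * P.eD

theorem loop1 : cos (2 * P.m) + P.μ * sin (2 * P.m) = 1 := by
  have := sin_sq_add_cos_sq (arctan P.μ)
  rw [sin_two_mul, cos_two_mul', m]
  rw [sin_arctan_eq] at this ⊢
  linear_combination this

theorem loop2 : P.μ * cos (2 * P.m) - sin (2 * P.m) = -P.μ := by
  have := sin_sq_add_cos_sq (arctan P.μ)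
  rw [sin_two_mul, cos_two_mul', m]
  rw [sin_arctan_eq] at this ⊢
  linear_combination (-P.μ) * this

/-- The value at the end of a stem. -/
noncomputable def g : ℝ := cos P.s + P.D * sin P.s

theorem stem : 2 * P.μ * P.g = P.D * cos P.s - sin P.s := by
  rw [g, s, sin_arctan_eq]
  linear_combination cos (arctan P.σ) * P.eμ

/-- A cycle made of two arcs whose lengths differ by `π`, with a lasso at each vertex. -/
@[reducible] noncomputable def G : MetricGraph where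
  nV := 4
  nE := 6
  src := ![0, 0, 0, 1, 2, 3]
  tgt := ![1, 1, 2, 3, 2, 3]
  len := ![2 * P.h, 2 * P.h + π, P.s, P.s, 2 * P.m, 2 * P.m]
  len_pos := by
    have := P.h0
    have := P.s0
    have := P.m0
    have := pi_pos
    intro e
    fin_cases e <;> simp <;> positivity

theorem no_small {ν : ℝ} (n0 : 0 < ν) (n1 : ν < 1) (f : P.G.Point → ℝ) :
    ¬ P.G.IsEigenfunction ν f := by
  rintro ⟨hf, u, u', hu, hv, hd, hK⟩
  obtain ⟨k, hk0, hk1, rfl⟩ : ∃ k : ℝ, 0 < k ∧ k < 1 ∧ ν = k ^ 2 :=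
    ⟨√ν, sqrt_pos.mpr n0, by rw [sqrt_lt' one_pos]; linarith, (sq_sqrt n0.le).symm⟩
  have sol := fun e => ode_sol hk0.ne' (hd e)
  have en := fun e => sol e (P.G.len e) ⟨(P.G.len_pos e).le, le_rfl⟩
  have hhp := P.h0
  have hsp := P.s0
  have hmp := P.m0
  have hhl := P.h1
  have hsl := P.s1
  have hml := P.m1
  have hpi := pi_pos
  have hkh : k * P.h < P.h := by nlinarith
  have hks : k * P.s < P.s := by nlinarith
  have hkm : k * P.m < P.m := by nlinarith
  have hkh0 : 0 < k * P.h := by positivity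
  have hks0 : 0 < k * P.s := by positivity
  have hkm0 : 0 < k * P.m := by positivity
  have hkp : k * π < π := by nlinarith
  have hkp0 : 0 < k * π := by positivity
  have c2 : ∀ x, cos (2 * x) = cos x ^ 2 - sin x ^ 2 := fun x => cos_two_mul' x
  have a0 : k * (2 * P.h) = 2 * (k * P.h) := by ring
  have a1 : k * (2 * P.h + π) = 2 * (k * P.h + k * π / 2) := by ring
  have a4 : k * (2 * P.m) = 2 * (k * P.m) := by ring
  have hsa : 0 < sin (k * P.h) := sin_pos_of_pos_of_lt_pi hkh0 (by linarith)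
  have hca := sin_lt_mul_cos (t := P.t) (γ := k * P.h) (by linarith) hkh
  have hss : 0 < sin (k * P.s) := sin_pos_of_pos_of_lt_pi hks0 (by linarith)
  have hcs := sin_lt_mul_cos (t := P.σ) (γ := k * P.s) (by linarith) hks
  have hsm : 0 < sin (k * P.m) := sin_pos_of_pos_of_lt_pi hkm0 (by linarith)
  have hcm := sin_lt_mul_cos (t := P.μ) (γ := k * P.m) (by linarith) hkm
  have hsb : 0 < sin (k * P.h + k * π / 2) := sin_pos_of_pos_of_lt_pi (by linarith) (by linarith)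
  have hcb := sin_lt_mul_cos (t := P.t) (γ := k * P.h + k * π / 2 - π / 2) (by linarith)
    (by change _ < P.h; linarith)
  rw [sin_sub_pi_div_two, cos_sub_pi_div_two] at hcb
  have v0 := hv 0
  have v1 := hv 1
  have v2 := hv 2
  have v3 := hv 3
  have v4 := hv 4
  have v5 := hv 5
  have n0 := en 0
  have n1 := en 1
  have n2 := en 2
  have n3 := en 3
  have n4 := en 4
  have n5 := en 5
  have K0 := hK 0
  have K1 := hK 1
  have K2 := hK 2
  have K3 := hK 3
  simp only [Finset.sum_filter, Fin.sum_univ_six] at K0 K1 K2 K3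
  change u 0 0 = f (Sum.inl 0) ∧ u 0 (2 * P.h) = f (Sum.inl 1) at v0
  change u 1 0 = f (Sum.inl 0) ∧ u 1 (2 * P.h + π) = f (Sum.inl 1) at v1
  change u 2 0 = f (Sum.inl 0) ∧ u 2 P.s = f (Sum.inl 2) at v2
  change u 3 0 = f (Sum.inl 1) ∧ u 3 P.s = f (Sum.inl 3) at v3
  change u 4 0 = f (Sum.inl 2) ∧ u 4 (2 * P.m) = f (Sum.inl 2) at v4
  change u 5 0 = f (Sum.inl 3) ∧ u 5 (2 * P.m) = f (Sum.inl 3) at v5
  change u 0 (2 * P.h) = u 0 0 * cos (k * (2 * P.h)) + u' 0 0 / k * sin (k * (2 * P.h)) ∧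
    u' 0 (2 * P.h) / k = -(u 0 0) * sin (k * (2 * P.h)) + u' 0 0 / k * cos (k * (2 * P.h)) at n0
  change u 1 (2 * P.h + π) =
    u 1 0 * cos (k * (2 * P.h + π)) + u' 1 0 / k * sin (k * (2 * P.h + π)) ∧
    u' 1 (2 * P.h + π) / k = -(u 1 0) * sin (k * (2 * P.h + π))
      + u' 1 0 / k * cos (k * (2 * P.h + π)) at n1
  change u 2 P.s = u 2 0 * cos (k * P.s) + u' 2 0 / k * sin (k * P.s) ∧
    u' 2 P.s / k = -(u 2 0) * sin (k * P.s) + u' 2 0 / k * cos (k * P.s) at n2
  change u 3 P.s = u 3 0 * cos (k * P.s) + u' 3 0 / k * sin (k * P.s) ∧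
    u' 3 P.s / k = -(u 3 0) * sin (k * P.s) + u' 3 0 / k * cos (k * P.s) at n3
  change u 4 (2 * P.m) = u 4 0 * cos (k * (2 * P.m)) + u' 4 0 / k * sin (k * (2 * P.m)) ∧
    u' 4 (2 * P.m) / k = -(u 4 0) * sin (k * (2 * P.m)) + u' 4 0 / k * cos (k * (2 * P.m)) at n4
  change u 5 (2 * P.m) = u 5 0 * cos (k * (2 * P.m)) + u' 5 0 / k * sin (k * (2 * P.m)) ∧
    u' 5 (2 * P.m) / k = -(u 5 0) * sin (k * (2 * P.m)) + u' 5 0 / k * cos (k * (2 * P.m)) at n5
  have K0' : u' 0 0 + u' 1 0 + u' 2 0 = 0 := by simpa using K0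
  have K1' : u' 3 0 - (u' 0 (2 * P.h) + u' 1 (2 * P.h + π)) = 0 := by simpa using K1
  have K2' : u' 4 0 - (u' 2 P.s + u' 4 (2 * P.m)) = 0 := by simpa using K2
  have K3' : u' 5 0 - (u' 3 P.s + u' 5 (2 * P.m)) = 0 := by simpa using K3
  rw [a0, c2, sin_two_mul, v0.1, v0.2] at n0
  rw [a1, c2, sin_two_mul, v1.1, v1.2] at n1
  rw [v2.1, v2.2] at n2
  rw [v3.1, v3.2] at n3
  rw [a4, c2, sin_two_mul, v4.1, v4.2] at n4
  rw [a4, c2, sin_two_mul, v5.1, v5.2] at n5
  obtain ⟨z0, z1, z2, z3, b0, b1, b2, b3, b4, b5⟩ :=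
    all_zero' P (sin_sq_add_cos_sq _) (sin_sq_add_cos_sq _) (sin_sq_add_cos_sq _)
      hsa hca hss hcs hsm hcm hsb hcb n0.1.symm n1.1.symm n2.1.symm n3.1.symm n4.1.symm n5.1.symm
      (by rw [← add_div, ← add_div, K0', zero_div])
      (by rw [← n0.2, ← n1.2, ← sub_div, ← sub_div, sub_sub, K1', zero_div])
      (by rw [← n2.2, ← n4.2, ← sub_div, ← sub_div, sub_sub, K2', zero_div])
      (by rw [← n3.2, ← n5.2, ← sub_div, ← sub_div, sub_sub, K3', zero_div])
  have hA : ∀ e, u e 0 = 0 := by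
    intro e
    fin_cases e
    exacts [v0.1.trans z0, v1.1.trans z0, v2.1.trans z0, v3.1.trans z1, v4.1.trans z2,
      v5.1.trans z3]
  have hB : ∀ e, u' e 0 / k = 0 := by
    intro e
    fin_cases e
    exacts [b0, b1, b2, b3, b4, b5]
  apply hf
  funext p
  rcases p with v | ⟨e, x⟩
  · fin_cases v
    exacts [z0, z1, z2, z3]
  · rw [← hu e x, (sol e x (Ioo_subset_Icc_self x.2)).1, hA, hB, zero_mul, zero_mul, add_zero]
    rfl

/-- Coefficients of the cosine on each edge. -/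
noncomputable def cA (p q : ℝ) : Fin 6 → ℝ := ![p, p, p, q, p * P.g, q * P.g]

/-- Coefficients of the sine on each edge. -/
noncomputable def cB (p q B C : ℝ) : Fin 6 → ℝ :=
  ![B, C, p * P.D, q * P.D, p * P.g * P.μ, q * P.g * P.μ]

/-- The eigenfunction with given values at the vertices of the cycle. -/
noncomputable def ef (p q B C : ℝ) : P.G.Point → ℝ
  | Sum.inl v => ![p, q, p * P.g, q * P.g] v
  | Sum.inr ⟨e, x⟩ => P.cA p q e * cos x + P.cB p q B C e * sin x

theorem ef_eigen {p q B C : ℝ} (hq : q = p * cos (2 * P.h) + B * sin (2 * P.h))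
    (hB : B + C + p * P.D = 0) (hne : P.ef p q B C ≠ 0) :
    P.G.IsEigenfunction 1 (P.ef p q B C) := by
  have e1 := P.cot_a
  have e2 := P.loop1
  have e3 := P.loop2
  have e4 := P.stem
  refine ⟨hne, fun e x => P.cA p q e * cos x + P.cB p q B C e * sin x,
    fun e x => -(P.cA p q e * sin x) + P.cB p q B C e * cos x, fun e x => rfl, ?_, ?_, ?_⟩
  · intro e
    fin_cases e
    · exact ⟨by simp [cA, ef], hq.symm⟩
    · refine ⟨by simp [cA, ef], ?_⟩
      change p * cos (2 * P.h + π) + C * sin (2 * P.h + π) = q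
      rw [cos_add_pi, sin_add_pi]
      linear_combination (-1) * hq - sin (2 * P.h) * hB + p * e1
    · refine ⟨by simp [cA, ef], ?_⟩
      change p * cos P.s + p * P.D * sin P.s = p * P.g
      rw [g]; ring
    · refine ⟨by simp [cA, ef], ?_⟩
      change q * cos P.s + q * P.D * sin P.s = q * P.g
      rw [g]; ring
    · refine ⟨by simp [cA, ef], ?_⟩
      change p * P.g * cos (2 * P.m) + p * P.g * P.μ * sin (2 * P.m) = p * P.g
      linear_combination p * P.g * e2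
    · refine ⟨by simp [cA, ef], ?_⟩
      change q * P.g * cos (2 * P.m) + q * P.g * P.μ * sin (2 * P.m) = q * P.g
      linear_combination q * P.g * e2
  · intro e x _
    constructor
    · exact (((hasDerivAt_cos x).const_mul (P.cA p q e)).add
        ((hasDerivAt_sin x).const_mul (P.cB p q B C e))).hasDerivWithinAt.congr_deriv (by ring)
    · exact (((hasDerivAt_sin x).const_mul (P.cA p q e)).neg.add
        ((hasDerivAt_cos x).const_mul (P.cB p q B C e))).hasDerivWithinAt.congr_deriv (by ring)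
  · intro v
    simp only [Finset.sum_filter, Fin.sum_univ_six]
    fin_cases v
    · simp [cA, cB]
      linear_combination hB
    · simp [cA, cB, cos_add_pi, sin_add_pi]
      linear_combination P.D * hq + cos (2 * P.h) * hB + B * e1
    · simp [cA, cB]
      linear_combination p * e4 - p * P.g * e3
    · simp [cA, cB]
      linear_combination q * e4 - q * P.g * e3

theorem amp {c x : ℝ} (hc : 0 < c) (x0 : 0 < x) (x1 : x < π / 2) :
    0 ≤ cos x + c * sin x ∧ cos x + c * sin x ≤ 1 + c := by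
  have h1 := cos_pos_of_mem_Ioo (x := x) ⟨by linarith, x1⟩
  have h2 := sin_pos_of_pos_of_lt_pi x0 (by linarith)
  have h3 := mul_le_mul_of_nonneg_left (sin_le_one x) hc.le
  exact ⟨by positivity, by linarith [cos_le_one x]⟩

theorem ef_le {p q B C : ℝ} (hp : p * ((1 + P.D) * (1 + P.μ)) ≤ 1)
    (hq : q * ((1 + P.D) * (1 + P.μ)) ≤ 1)
    (hB : ∀ x, 0 < x → x < 2 * P.h → p * cos x + B * sin x ≤ 1)
    (hC : ∀ x, 0 < x → x < 2 * P.h + π → p * cos x + C * sin x ≤ 1) (z : P.G.Point) :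
    P.ef p q B C z ≤ 1 := by
  have hD := P.D0
  have hμ := P.μ0
  have hsl := P.s1
  have hml := P.m1
  have hpi := pi_pos
  have gen : ∀ r A A' : ℝ, r * ((1 + P.D) * (1 + P.μ)) ≤ 1 → 0 ≤ A ∧ A ≤ 1 + P.D →
      0 ≤ A' ∧ A' ≤ 1 + P.μ → r * (A * A') ≤ 1 := by
    intro r A A' h1 h2 h3
    rcases le_total r 0 with h | h
    · exact (mul_nonpos_of_nonpos_of_nonneg h (mul_nonneg h2.1 h3.1)).trans zero_le_one
    · exact (mul_le_mul_of_nonneg_left (mul_le_mul h2.2 h3.2 h3.1 (by positivity)) h).trans h1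
  have hg : 0 ≤ P.g ∧ P.g ≤ 1 + P.D := amp hD P.s0 (by linarith)
  have o1 : (0 : ℝ) ≤ 1 ∧ 1 ≤ 1 + P.D := ⟨zero_le_one, by linarith⟩
  have o2 : (0 : ℝ) ≤ 1 ∧ 1 ≤ 1 + P.μ := ⟨zero_le_one, by linarith⟩
  rcases z with v | ⟨e, x, hx0, hx1⟩
  · fin_cases v
    · exact le_of_eq_of_le (by change p = _; ring) (gen p 1 1 hp o1 o2)
    · exact le_of_eq_of_le (by change q = _; ring) (gen q 1 1 hq o1 o2)
    · exact le_of_eq_of_le (by change p * P.g = _; ring) (gen p _ 1 hp hg o2)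
    · exact le_of_eq_of_le (by change q * P.g = _; ring) (gen q _ 1 hq hg o2)
  · fin_cases e
    · exact hB x hx0 hx1
    · exact hC x hx0 hx1
    · change x < P.s at hx1
      exact le_of_eq_of_le (by change p * cos x + p * P.D * sin x = _; ring)
        (gen p _ 1 hp (amp hD hx0 (by linarith)) o2)
    · change x < P.s at hx1
      exact le_of_eq_of_le (by change q * cos x + q * P.D * sin x = _; ring)
        (gen q _ 1 hq (amp hD hx0 (by linarith)) o2)
    · change x < 2 * P.m at hx1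
      exact le_of_eq_of_le (by change p * P.g * cos x + p * P.g * P.μ * sin x = _; ring)
        (gen p _ _ hp hg (amp hμ hx0 (by linarith)))
    · change x < 2 * P.m at hx1
      exact le_of_eq_of_le (by change q * P.g * cos x + q * P.g * P.μ * sin x = _; ring)
        (gen q _ _ hq hg (amp hμ hx0 (by linarith)))

theorem hot {p q B C : ℝ} (hq : q = p * cos (2 * P.h) + B * sin (2 * P.h))
    (hB : B + C + p * P.D = 0) (hle : ∀ z, P.ef p q B C z ≤ 1) {z : P.G.Point}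
    (hz : P.ef p q B C z = 1) : z ∈ P.G.hotSpots := by
  have he := P.ef_eigen hq hB fun h => zero_ne_one ((congrFun h z).symm.trans hz)
  refine ⟨1, _, ⟨⟨one_pos, _, he⟩, ?_⟩, he, Or.inl fun w => hz ▸ hle w⟩
  rintro ν ⟨h0, g, hg⟩
  by_contra h1
  exact P.no_small h0 (not_le.mp h1) g hg

theorem sin_le_a {y : ℝ} (y0 : -π ≤ y) (y1 : y ≤ 2 * P.h) : sin y ≤ sin (2 * P.h) := by
  have hhp := P.h0
  have hhl := P.h1
  rcases le_total y 0 with h | h
  · exact (sin_nonpos_of_nonpos_of_neg_pi_le h y0).trans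
      (sin_nonneg_of_nonneg_of_le_pi (by linarith) (by linarith))
  · exact sin_le_sin_of_le_of_le_pi_div_two (by linarith) (by linarith) y1

theorem sin_a_pos : 0 < sin (2 * P.h) :=
  sin_pos_of_pos_of_lt_pi (by linarith [P.h0]) (by linarith [P.h1, pi_pos])

theorem cos_le {δ y : ℝ} (d0 : 0 < δ) (d1 : δ < π / 4) (y0 : δ ≤ y) (y1 : y ≤ 3 * π / 2) :
    cos y ≤ cos δ := by
  rcases le_total y π with h | h
  · exact cos_le_cos_of_nonneg_of_le_pi d0.le h y0
  · exact (cos_nonpos_of_pi_div_two_le_of_le (by linarith) (by linarith)).trans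
      (cos_nonneg_of_mem_Icc ⟨by linarith, by linarith⟩)

theorem hot_long {δ : ℝ} (d0 : 0 < δ) (d1 : δ < π / 4)
    (hδ : cos δ * ((1 + P.D) * (1 + P.μ)) ≤ 1) (θ : Ioo (0 : ℝ) (P.G.len 1)) (t0 : δ < θ.1)
    (t1 : θ.1 < 2 * P.h + π - δ) : (Sum.inr ⟨1, θ⟩ : P.G.Point) ∈ P.G.hotSpots := by
  obtain ⟨θ, hθ⟩ := θ
  simp only at t0 t1
  have hhp := P.h0
  have hhl := P.h1
  have hK : 0 ≤ (1 + P.D) * (1 + P.μ) := by have := P.D0; have := P.μ0; positivity
  have e1 := P.cot_a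
  have hq : cos (2 * P.h + π - θ) =
      cos θ * cos (2 * P.h) + (-sin θ - cos θ * P.D) * sin (2 * P.h) := by
    rw [cos_sub, cos_add_pi, sin_add_pi]
    linear_combination cos θ * e1
  refine P.hot (C := sin θ) hq (by ring) (P.ef_le
    ((mul_le_mul_of_nonneg_right (cos_le d0 d1 t0.le (by linarith)) hK).trans hδ)
    ((mul_le_mul_of_nonneg_right (cos_le d0 d1 (by linarith) (by linarith)) hK).trans hδ)
    (fun x x0 x1 => ?_) fun x _ _ => (cos_sub θ x).symm.trans_le (cos_le_one _)) ?_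
  · refine le_of_mul_le_mul_right ?_ P.sin_a_pos
    have s1 := sin_pos_of_pos_of_lt_pi x0 (by linarith)
    have s2 := sin_pos_of_pos_of_lt_pi (x := 2 * P.h - x) (by linarith) (by linarith)
    have s3 := P.sin_le_a (y := x) (by linarith) x1.le
    have s4 := P.sin_le_a (y := 2 * P.h - x) (by linarith) (by linarith)
    have key : (cos θ * cos x + (-sin θ - cos θ * P.D) * sin x) * sin (2 * P.h) =
        cos θ * sin (2 * P.h - x) + cos (2 * P.h + π - θ) * sin x := by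
      rw [hq, sin_sub]; ring
    rw [key]
    rcases le_total θ (π / 2) with h | h
    · have := cos_nonpos_of_pi_div_two_le_of_le (x := 2 * P.h + π - θ) (by linarith) (by linarith)
      nlinarith [cos_le_one θ]
    · have := cos_nonpos_of_pi_div_two_le_of_le h (by linarith)
      nlinarith [cos_le_one (2 * P.h + π - θ)]
  · change cos θ * cos θ + sin θ * sin θ = 1
    linear_combination sin_sq_add_cos_sq θ

theorem hot_short {δ : ℝ} (d0 : 0 < δ) (d1 : δ < π / 4)
    (hδ : cos δ * ((1 + P.D) * (1 + P.μ)) ≤ 1) (θ : Ioo (0 : ℝ) (P.G.len 0)) (t0 : δ < θ.1)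
    (t1 : θ.1 < 2 * P.h - δ) : (Sum.inr ⟨0, θ⟩ : P.G.Point) ∈ P.G.hotSpots := by
  obtain ⟨θ, hθ⟩ := θ
  simp only at t0 t1
  have hhp := P.h0
  have hhl := P.h1
  have hK : 0 ≤ (1 + P.D) * (1 + P.μ) := by have := P.D0; have := P.μ0; positivity
  have e1 := P.cot_a
  have hq : cos (2 * P.h - θ) = cos θ * cos (2 * P.h) + sin θ * sin (2 * P.h) := by
    rw [cos_sub]; ring
  refine P.hot (C := -sin θ - cos θ * P.D) hq (by ring) (P.ef_le
    ((mul_le_mul_of_nonneg_right (cos_le d0 d1 t0.le (by linarith)) hK).trans hδ)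
    ((mul_le_mul_of_nonneg_right (cos_le d0 d1 (by linarith) (by linarith)) hK).trans hδ)
    (fun x _ _ => (cos_sub θ x).symm.trans_le (cos_le_one _)) fun x x0 x1 => ?_) ?_
  · refine le_of_mul_le_mul_right ?_ P.sin_a_pos
    have p0 := cos_pos_of_mem_Ioo (x := θ) ⟨by linarith, by linarith⟩
    have q0 := cos_pos_of_mem_Ioo (x := 2 * P.h - θ) ⟨by linarith, by linarith⟩
    have a0 := P.sin_a_pos
    have key : (cos θ * cos x + (-sin θ - cos θ * P.D) * sin x) * sin (2 * P.h) =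
        cos θ * sin (2 * P.h - x) - cos (2 * P.h - θ) * sin x := by
      rw [hq, sin_sub]
      linear_combination (-cos θ * sin x) * e1
    rw [key]
    rcases le_total x π with h | h
    · have s1 := sin_nonneg_of_nonneg_of_le_pi x0.le h
      have s2 := P.sin_le_a (y := 2 * P.h - x) (by linarith) (by linarith)
      nlinarith [cos_le_one θ]
    · have s1 := sin_nonpos_of_nonpos_of_neg_pi_le (x := 2 * P.h - x) (by linarith) (by linarith)
      have s2 := P.sin_le_a (y := x - π) (by linarith) (by linarith)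
      rw [sin_sub_pi] at s2
      nlinarith [cos_le_one (2 * P.h - θ)]
  · change cos θ * cos θ + sin θ * sin θ = 1
    linear_combination sin_sq_add_cos_sq θ

end Par

theorem arctan_le {x : ℝ} (h : 0 < x) : arctan x ≤ x := by
  simpa using le_tan (arctan_pos.mpr h).le (arctan_lt_pi_div_two x)

theorem exists_par {δ : ℝ} (d0 : 0 < δ) (d1 : δ ≤ 1 / 4) : ∃ P : Par,
    cos δ * ((1 + P.D) * (1 + P.μ)) ≤ 1 ∧ δ < P.h ∧ P.s ≤ δ ∧ P.m ≤ δ := by
  have c1 : cos δ < 1 := by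
    simpa using cos_lt_cos_of_nonneg_of_le_pi le_rfl (by linarith [pi_gt_three]) d0
  obtain ⟨D, D0, D1, D2⟩ : ∃ D : ℝ, 0 < D ∧ D ≤ δ ∧ 3 * D ≤ 1 - cos δ :=
    ⟨min δ ((1 - cos δ) / 3), lt_min d0 (by linarith), min_le_left _ _, by
      linarith [min_le_right δ ((1 - cos δ) / 3)]⟩
  obtain ⟨r, r0, r1⟩ : ∃ r : ℝ, 0 ≤ r ∧ r ^ 2 = D ^ 2 + 4 :=
    ⟨√(D ^ 2 + 4), sqrt_nonneg _, sq_sqrt (by positivity)⟩
  have r2 : 2 ≤ r := by nlinarith
  have r3 : r < D + 2 := by nlinarith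
  have m1 : D / (4 + 2 * D ^ 2) ≤ D := div_le_self D0.le (by nlinarith)
  have m0 : 0 < D / (4 + 2 * D ^ 2) := by positivity
  refine ⟨⟨(r - D) / 2, D, D / 2, D / (4 + 2 * D ^ 2), by linarith, by linarith, D0, by linarith,
    by linarith, m0, by linarith, by linear_combination (1 / 4) * r1, by field_simp; ring⟩,
    ?_, ?_, (arctan_le (by positivity)).trans (by change D / 2 ≤ δ; linarith),
    (arctan_le m0).trans (m1.trans D1)⟩
  · change cos δ * ((1 + D) * (1 + D / (4 + 2 * D ^ 2))) ≤ 1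
    have h1 : (1 + D) * (1 + D / (4 + 2 * D ^ 2)) ≤ 1 + 3 * D := by nlinarith
    have h2 := cos_nonneg_of_mem_Icc (x := δ) ⟨by linarith [pi_pos], by linarith [pi_gt_three]⟩
    nlinarith [mul_le_mul_of_nonneg_left h1 h2]
  · change δ < arctan ((r - D) / 2)
    have h1 := sin_arctan_eq ((r - D) / 2)
    have h2 := sin_sq_add_cos_sq (arctan ((r - D) / 2))
    have h3 := cos_arctan_pos ((r - D) / 2)
    have h4 := sin_le (arctan_pos.mpr (show 0 < (r - D) / 2 by linarith)).le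
    have h5 : 1 / 2 ≤ cos (arctan ((r - D) / 2)) := by
      by_contra h
      have : sin (arctan ((r - D) / 2)) ≤ cos (arctan ((r - D) / 2)) := by rw [h1]; nlinarith
      have : 0 ≤ sin (arctan ((r - D) / 2)) := by rw [h1]; nlinarith
      nlinarith
    nlinarith

end Pool.Agent.Lib.MP_159dfd_an
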